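import Pool.Agent.P.MP_012ca0_co.Ev.Tour

set_option autoImplicit false

namespace Pool.Agent.Results.MP_012ca0_co.DetFormula

open Pool.Agent.P.MP_012ca0_co.Ev

/-- The number of Hamilton cycles of every regular tournament on `n` vertices, divided by
`(n-1)! / 2^n`, is `det (1 + X) / √(det (1 + X^2)) + o(1)`, uniformly, where `n X` is the skew
sign matrix of the tournament. -/
theorem result : ∀ ε : ℝ, 0 < ε → ∃ n₀ : ℕ, ∀ n : ℕ, n₀ ≤ n → Odd n →
    ∀ adj : Fin n → Fin n → Prop,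
      (∀ v, ¬ adj v v) →
      (∀ v w, v ≠ w → (adj v w ↔ ¬ adj w v)) →
      (∀ v, {w : Fin n | adj v w}.ncard = (n - 1) / 2) →
      ∀ X : Matrix (Fin n) (Fin n) ℝ,
        (∀ v, X v v = 0) →
        (∀ v w, adj v w → X v w = 1 / (n : ℝ) ∧ X w v = -1 / (n : ℝ)) →
        |(({c : Equiv.Perm (Fin n) |
              c.IsCycle ∧ c.support = Finset.univ ∧ ∀ v, adj v (c v)}.ncard : ℕ) : ℝ) /
            ((Nat.factorial (n - 1) : ℝ) / (2 : ℝ) ^ n) -
          (1 + X).det / Real.sqrt (1 + X * X).det| ≤ ε := by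
  intro ε hε
  obtain ⟨n₀, H⟩ := Filter.eventually_atTop.1 (asym hε)
  refine ⟨n₀, fun n hn ho adj h1 h2 h3 X h4 h5 => ?_⟩
  have hN : (0 : ℝ) < n := by exact_mod_cast ho.pos
  have T : Tour adj fun v w => n * X v w := ⟨ho, h1, h2, h3, fun v => by rw [h4, mul_zero],
    fun v w h => by rw [(h5 v w h).1, (h5 v w h).2]; constructor <;> field_simp⟩
  obtain ⟨l, hs⟩ := exists_Spec T.good (by simpa using ho.pos)
  have e : XX (fun v w => n * X v w) = X := by
    ext v w
    simp only [XX, Matrix.of_apply, Fintype.card_fin]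
    field_simp
  have := H n hn adj _ T l hs
  rwa [hs.exp_LL T.good, e] at this

end Pool.Agent.Results.MP_012ca0_co.DetFormula
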