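import Pool.Agent.P.MP_012ca0_co.Ev.Sharp

set_option autoImplicit false

namespace Pool.Agent.Results.MP_012ca0_co.EveryRegular

open Pool.Agent.P.MP_012ca0_co.Ev

/-- `e` is the largest constant `c` such that every regular tournament on `n` vertices has at
least `(c - o(1)) (n-1)! / 2^n` directed Hamilton cycles. -/
theorem result : IsGreatest {c : ℝ | ∀ ε : ℝ, 0 < ε → ∃ n₀ : ℕ, ∀ n : ℕ, n₀ ≤ n → Odd n →
    ∀ adj : Fin n → Fin n → Prop,
      (∀ v, ¬ adj v v) →
      (∀ v w, v ≠ w → (adj v w ↔ ¬ adj w v)) →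
      (∀ v, {w : Fin n | adj v w}.ncard = (n - 1) / 2) →
      (c - ε) * ((Nat.factorial (n - 1) : ℝ) / (2 : ℝ) ^ n) ≤
        (({g : Equiv.Perm (Fin n) |
            g.IsCycle ∧ g.support = Finset.univ ∧ ∀ v, adj v (g v)}.ncard : ℕ) : ℝ)}
    (Real.exp 1) := by
  classical
  refine ⟨fun ε hε => ?_, fun c hc => le_of_forall_pos_le_add fun ε hε => ?_⟩
  · obtain ⟨n₀, H⟩ := Filter.eventually_atTop.1 ((asym (half_pos hε)).and
      ((tendsto_const_div_atTop_nhds_zero_nat (Real.exp 1)).eventually_le_const (half_pos hε)))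
    refine ⟨n₀, fun n hn ho adj h1 h2 h3 => ?_⟩
    have hN : (0 : ℝ) < n := by exact_mod_cast ho.pos
    have T : Tour adj fun v w => if adj v w then 1 else if adj w v then -1 else 0 :=
      ⟨ho, h1, h2, h3, fun v => by simp [h1], fun v w h => by
        have : ¬ adj w v := (h2 v w fun e => h1 v (e ▸ h)).1 h
        simp [h, this]⟩
    obtain ⟨l, hs⟩ := exists_Spec T.good (by simpa using ho.pos)
    have a := (abs_le.1 ((H n hn).1 adj _ T l hs)).1
    have b := hs.le_LL
    rw [hs.sum, T.sum_sq, Fintype.card_fin,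
      show (n : ℝ) * (n - 1) / n ^ 2 = 1 + -(1 / n) by field_simp; ring] at b
    have c := Real.exp_le_exp.2 b
    rw [Real.exp_add] at c
    have d := mul_le_mul_of_nonneg_left (Real.add_one_le_exp (-(1 / (n : ℝ)))) (Real.exp_pos 1).le
    have e := (H n hn).2
    rw [← le_div_iff₀ (by positivity)]
    rw [div_eq_mul_one_div] at e
    linarith
  · have h3 : 0 < ε / 3 := by positivity
    obtain ⟨n₀, H⟩ := hc _ h3
    obtain ⟨n₁, G⟩ := Filter.eventually_atTop.1 ((asym h3).and
      ((tendsto_const_div_atTop_nhds_zero_nat (4 * Real.exp 1)).eventually_le_const h3))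
    obtain ⟨p, p1, p2, p3⟩ := Nat.forall_exists_prime_gt_and_modEq (n₀ + n₁) (q := 4) (a := 3)
      (by norm_num) (by norm_num)
    obtain ⟨adj, S, T, q⟩ := paley p p2 p3
    have hN : (2 : ℝ) ≤ p := by exact_mod_cast p2.two_le
    obtain ⟨l, hs⟩ := exists_Spec T.good (by simpa using p2.pos)
    have a := H p (by omega) T.odd adj T.irr T.tot T.reg
    rw [← le_div_iff₀ (by positivity)] at a
    have b := (abs_le.1 ((G p (by omega)).1 adj S T l hs)).2
    have d : ∑ i, l i ^ 2 ≤ 2 / (p : ℝ) := by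
      rw [hs.sumsq, Fintype.card_fin, div_le_div_iff₀ (by positivity) (by positivity)]
      nlinarith
    have e := Real.exp_le_exp.2 ((hs.LL_le_one T.good).trans (add_le_add_right d 1))
    have f := Real.abs_exp_sub_one_le (x := 2 / (p : ℝ)) (by
      rw [abs_of_pos (by positivity), div_le_one (by positivity)]; exact hN)
    rw [abs_of_pos (show 0 < 2 / (p : ℝ) by positivity)] at f
    have g := mul_le_mul_of_nonneg_left (abs_le.1 f).2 (Real.exp_pos 1).le
    have k := (G p (by omega)).2
    rw [Real.exp_add] at e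
    have : 4 * Real.exp 1 / p = Real.exp 1 * (2 * (2 / (p : ℝ))) := by ring
    linarith

end Pool.Agent.Results.MP_012ca0_co.EveryRegular
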