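import Pool.Agent.P.MP_012ca0_co.Sh.Main

namespace Pool.Agent.Results.MP_012ca0_co.SharpConstant

/-- The largest constant `c` such that every odd `n ≥ 3` has a regular tournament with at least
`c (n-1)! / 2^n` directed Hamilton cycles is `8 / 3`. -/
theorem result :
    IsGreatest {c : ℝ | ∀ n : ℕ, Odd n → 3 ≤ n →
      ∃ adj : Fin n → Fin n → Prop,
        (∀ v, ¬ adj v v) ∧
        (∀ v w, v ≠ w → (adj v w ↔ ¬ adj w v)) ∧
        (∀ v, {w : Fin n | adj v w}.ncard = (n - 1) / 2) ∧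
        c * ((Nat.factorial (n - 1) : ℝ) / (2 : ℝ) ^ n) ≤
          (({g : Equiv.Perm (Fin n) |
              g.IsCycle ∧ g.support = Finset.univ ∧ ∀ v, adj v (g v)}.ncard : ℕ) : ℝ)}
      (8 / 3) := by
  refine ⟨P.MP_012ca0_co.Sh.lower, fun c hc => ?_⟩
  obtain ⟨adj, h1, h2, h3, h4⟩ := hc 5 (by decide) (by norm_num)
  have h5 := h4.trans (Nat.cast_le.2 (P.MP_012ca0_co.Sh.upper adj h1 h2 h3))
  norm_num [Nat.factorial] at h5
  linarith

end Pool.Agent.Results.MP_012ca0_co.SharpConstant
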