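import Pool.Agent.P.MP_012ca0_co.Ev.Sharp

set_option autoImplicit false

namespace Pool.Agent.Results.MP_012ca0_co.UpperBound

open Pool.Agent.P.MP_012ca0_co.Ev

/-- Every large regular tournament has at most `2.86 (n-1)! / 2^n` directed Hamilton cycles. -/
theorem result : ∃ n₀ : ℕ, ∀ n : ℕ, n₀ ≤ n → Odd n →
    ∀ adj : Fin n → Fin n → Prop,
      (∀ v, ¬ adj v v) →
      (∀ v w, v ≠ w → (adj v w ↔ ¬ adj w v)) →
      (∀ v, {w : Fin n | adj v w}.ncard = (n - 1) / 2) →
      (({g : Equiv.Perm (Fin n) |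
          g.IsCycle ∧ g.support = Finset.univ ∧ ∀ v, adj v (g v)}.ncard : ℕ) : ℝ) ≤
        286 / 100 * ((Nat.factorial (n - 1) : ℝ) / (2 : ℝ) ^ n) := by
  classical
  obtain ⟨n₀, H⟩ := Filter.eventually_atTop.1 (asym (ε := 0.0004) (by norm_num))
  refine ⟨n₀, fun n hn ho adj h1 h2 h3 => ?_⟩
  have T : Tour adj fun v w => if adj v w then 1 else if adj w v then -1 else 0 :=
    ⟨ho, h1, h2, h3, fun v => by simp [h1], fun v w h => by
      have : ¬ adj w v := (h2 v w fun e => h1 v (e ▸ h)).1 h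
      simp [h, this]⟩
  obtain ⟨l, hs⟩ := exists_Spec T.good (by simpa using ho.pos)
  have a := (abs_le.1 (H n hn adj _ T l hs)).2
  have b := hs.exp_LL_lt T.good
  rw [← div_le_iff₀ (by positivity)]
  linarith

end Pool.Agent.Results.MP_012ca0_co.UpperBound
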